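import Pool.Agent.H81.Ins2

set_option autoImplicit false

namespace Pool.Agent.Results.MP_6ae079_co.Rational

open Set Module Pool.Agent.H81.Ins

/-- the cyclic polytope `C_4(7)`, with parameters `t = 1, …, 7` on the moment curve -/
def cyc : Set (EuclideanSpace ℝ (Fin 4)) :=
  convexHull ℝ (range fun i : Fin 7 =>
    (WithLp.toLp 2 fun k : Fin 4 => ((i : ℝ) + 1) ^ (k.val + 1) : EuclideanSpace ℝ (Fin 4)))

/-- the face lattice: all exposed faces (the empty set and `P` included), ordered by inclusion -/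
abbrev Faces (P : Set (EuclideanSpace ℝ (Fin 4))) := {F // IsExposed ℝ P F}

lemma iso {ι κ : Type} [Fintype κ] (p : ι → E 4) (h : κ → E 4 × ℝ →ₗ[ℝ] ℝ) (r : ι → κ → Prop)
    (h0 : ∀ i j, 0 ≤ h j (p i, 1)) (hr : ∀ i j, h j (p i, 1) = 0 ↔ r i j)
    (cl : ∀ f : E 4 × ℝ →ₗ[ℝ] ℝ, (∀ i, 0 ≤ f (p i, 1)) → Order.IsExtent r {i | f (p i, 1) = 0}) :
    Nonempty (Faces (convexHull ℝ (range p)) ≃o Concept ι κ r) := by
  classical
  have m : ∀ i, p i ∈ convexHull ℝ (range p) := fun i => subset_convexHull ℝ _ ⟨i, rfl⟩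
  have ex : ∀ F : Faces (convexHull ℝ (range p)), Order.IsExtent r {i | p i ∈ F.1} := by
    rintro ⟨F, hF⟩
    rcases F.eq_empty_or_nonempty with rfl | ⟨a, ha⟩
    · simpa using cl (LinearMap.snd ℝ _ _) (by simp)
    obtain ⟨l, rfl⟩ := hF ⟨a, ha⟩
    convert cl (l a • LinearMap.snd ℝ _ _ - l.toLinearMap ∘ₗ LinearMap.fst ℝ _ _)
      (fun i => by simpa using ha.2 _ (m i)) using 3 with i
    simp only [mem_setOf_eq, m i, true_and]
    refine ⟨fun h => ?_, fun h y hy => ?_⟩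
    · simp [(h a ha.1).antisymm (ha.2 _ (m i))]
    · have e : l a = l (p i) := by simpa [sub_eq_zero] using h
      exact e ▸ ha.2 y hy
  refine ⟨RelIso.ofSurjective (OrderEmbedding.ofMapLEIff
    (fun F => Concept.ofIsExtent r _ (ex F)) fun F G => ?_) fun c => ?_⟩
  · rw [← Concept.extent_subset_extent_iff]
    refine ⟨fun k => ?_, fun k i hi => k hi⟩
    show F.1 ⊆ G.1
    rw [supp F.2, supp G.2]
    refine convexHull_mono ?_
    rintro _ ⟨⟨i, rfl⟩, hi⟩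
    exact ⟨⟨i, rfl⟩, k hi⟩
  · let f := ∑ j ∈ Finset.univ.filter (· ∈ c.intent), h j
    let l : E 4 →L[ℝ] ℝ := LinearMap.toContinuousLinearMap (-f ∘ₗ LinearMap.inl ℝ _ _)
    have e : ∀ v, f (v, 1) = f (0, 1) - l v := fun v => by
      have : ((v, 1) : E 4 × ℝ) = (0, 1) + (v, 0) := by simp
      rw [this, map_add]; simp [l]
    have s : ∀ i, f (p i, 1) = ∑ j ∈ Finset.univ.filter (· ∈ c.intent), h j (p i, 1) :=
      fun i => LinearMap.sum_apply _ _ _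
    refine ⟨⟨_, expo (S := range p) l (c := f (0, 1)) ?_⟩, Concept.ext ?_⟩
    · rintro _ ⟨i, rfl⟩
      linarith [e (p i), s i, Finset.sum_nonneg fun j (_ : j ∈ Finset.univ.filter
        (· ∈ c.intent)) => h0 i j]
    · ext i
      show p i ∈ _ ∧ l (p i) = f (0, 1) ↔ _
      rw [← c.lowerPolar_intent, mem_lowerPolar_iff, and_iff_right (m i), eq_comm, ← sub_eq_zero,
        ← e, s, Finset.sum_eq_zero_iff_of_nonneg fun j _ => h0 i j]
      simp [hr]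

lemma rep {κ : Type} (s : Finset κ) (hs : s.card = 4) (q : E 4) (g : κ → E 4 × ℝ →ₗ[ℝ] ℝ)
    (n : κ → E 4 × ℝ) (h1 : ∀ i ∈ s, g i (q, 1) = 0)
    (h2 : ∀ i ∈ s, ∀ k ∈ s, g i (n k) = 0 ↔ i ≠ k) (f : E 4 × ℝ →ₗ[ℝ] ℝ) (hf : f (q, 1) = 0) :
    f = ∑ i ∈ s, (f (n i) / g i (n i)) • g i := by
  classical
  have key : ∀ (c : κ → ℝ), ∀ k ∈ s, ∑ i ∈ s, c i * g i (n k) = c k * g k (n k) := fun c k hk =>
    Finset.sum_eq_single_of_mem k hk fun i hi e => by rw [(h2 i hi k hk).mpr e, mul_zero]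
  have nz : ∀ k ∈ s, g k (n k) ≠ 0 := fun k hk e => (h2 k hk k hk).mp e rfl
  let v : Option s → E 4 × ℝ := fun o => o.elim (q, 1) fun i => n i
  have li : LinearIndependent ℝ v := by
    rw [Fintype.linearIndependent_iff]
    intro c hc
    rw [Fintype.sum_option] at hc
    have a : ∀ k : s, c (some k) = 0 := fun k => by
      have := congrArg (g k) hc
      simp only [v, Option.elim, map_add, map_smul, map_sum, h1 k k.2, smul_eq_mul, map_zero] at this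
      rw [Finset.sum_eq_single_of_mem k (Finset.mem_univ _) fun i _ e => by
        rw [(h2 k k.2 i i.2).mpr fun e' => e (Subtype.ext e'.symm), mul_zero]] at this
      simpa [nz k k.2] using this
    rintro (_ | k)
    · simpa [a, v] using congrArg Prod.snd hc
    · exact a k
  refine LinearMap.ext_on_range (li.span_eq_top_of_card_eq_finrank (by simp [hs])) ?_
  rintro (_ | ⟨k, hk⟩)
  · simp only [v, Option.elim, LinearMap.sum_apply, LinearMap.smul_apply, hf]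
    exact (Finset.sum_eq_zero fun i hi => by rw [h1 i hi, smul_zero]).symm
  · simp only [v, Option.elim, LinearMap.sum_apply, LinearMap.smul_apply, smul_eq_mul]
    rw [key _ k hk, div_mul_cancel₀ _ (nz k hk)]

noncomputable def lf (a : Fin 5 → ℤ) : E 4 × ℝ →ₗ[ℝ] ℝ := (a 0 : ℝ) • LinearMap.snd ℝ _ _ +
  ∑ k : Fin 4, (a k.succ : ℝ) • (EuclideanSpace.projₗ k ∘ₗ LinearMap.fst ℝ _ _)

noncomputable def pt (a : Fin 5 → ℤ) : E 4 := WithLp.toLp 2 fun k => (a k.succ : ℝ) / a 0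

def dt (a b : Fin 5 → ℤ) : ℤ := a 0 * b 0 + a 1 * b 1 + a 2 * b 2 + a 3 * b 3 + a 4 * b 4

lemma lf_pt (a b : Fin 5 → ℤ) (hb : 0 < b 0) : lf a (pt b, 1) = (dt a b : ℝ) / b 0 := by
  have : (b 0 : ℝ) ≠ 0 := by exact_mod_cast hb.ne'
  simp [lf, pt, dt, Fin.sum_univ_four]
  field_simp
  ring

lemma lf0 {a b : Fin 5 → ℤ} (hb : 0 < b 0) (h : 0 ≤ dt a b) : 0 ≤ lf a (pt b, 1) := by
  rw [lf_pt a b hb]; positivity

lemma lfz {a b : Fin 5 → ℤ} (hb : 0 < b 0) : lf a (pt b, 1) = 0 ↔ dt a b = 0 := by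
  rw [lf_pt a b hb]; simp [hb.ne']

def Q : Fin 14 → Fin 5 → ℤ :=
  ![![1, 1, 0, 0, 0], ![25, 20, -12, 9, 0], ![485, 355, -232, 124, -200], ![19, -1, 6, 18, 0],
    ![237, 27, 8, 124, -200], ![47, -23, -8, -4, -40], ![5, 4, 3, 0, 0],
    ![233, 193, 104, -68, 40], ![53, -32, -4, 13, 40], ![5, 0, 3, 4, 0],
    ![705, 120, 511, 248, -400], ![243, -147, 64, -88, -160], ![123, -57, 38, 94, 40],
    ![1, -1, 0, 0, 0]]

def G : Fin 7 → Fin 5 → ℤ :=
  ![![20, 20, -60, 20, -23], ![5, 5, -3, -4, 4], ![10, 10, 24, -18, 3], ![0, 0, 3, 4, -1],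
    ![24, -24, -8, 26, 41], ![12, -12, -4, -12, 5], ![6, -6, -2, -6, -11]]

def H : Fin 14 → Fin 5 → ℤ :=
  ![![840, -638, 179, -22, 1], ![504, -450, 145, -20, 1], ![360, -342, 119, -18, 1],
    ![252, -288, 113, -18, 1], ![180, -216, 91, -16, 1], ![120, -154, 71, -14, 1],
    ![-210, 317, -125, 19, -1], ![-140, 223, -99, 17, -1], ![-84, 145, -75, 15, -1],
    ![84, -152, 83, -16, 1], ![60, -112, 65, -14, 1], ![40, -78, 49, -12, 1],
    ![-42, 83, -53, 13, -1], ![24, -50, 35, -10, 1]]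

def M (i : Fin 7) (k : Fin 5) : ℤ := (i.val + 1) ^ k.val

def msk : Fin 14 → ℕ := ![120, 108, 60, 102, 54, 30, 113, 89, 77, 99, 51, 27, 71, 15]

abbrev r (i : Fin 7) (j : Fin 14) : Prop := (msk j).testBit i = true

lemma d1 : ∀ j, 0 < Q j 0 ∧ Q j 1 ^ 2 + Q j 2 ^ 2 + Q j 3 ^ 2 + Q j 4 ^ 2 = Q j 0 ^ 2 := by
  decide +kernel
lemma d2 : ∀ i j, 0 ≤ dt (G i) (Q j) ∧ (dt (G i) (Q j) = 0 ↔ r i j) := by decide +kernel
lemma d3 : ∀ i j, 0 ≤ dt (H j) (M i) ∧ (dt (H j) (M i) = 0 ↔ r i j) := by decide +kernel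
lemma d4 : ∀ j, (∃ i, ¬ r i j) ∧ (Finset.univ.filter (r · j)).card = 4 ∧
    ∀ i, r i j → ∃ n, ∀ k, r k j → (r k n ↔ k ≠ i) := by decide +kernel
lemma d5 : ∀ A : Finset (Fin 7), (∀ a, ¬ (a ∈ A ∧ a + 2 ∈ A ∧ a + 4 ∈ A)) →
    ∀ i, (∀ j, (∀ k ∈ A, r k j) → r i j) → i ∈ A := by decide +kernel

lemma isoP : Nonempty (Faces (convexHull ℝ (range fun j => pt (Q j))) ≃o
    Concept (Fin 14) (Fin 7) (Function.swap r)) := by
  have z : ∀ j i, lf (G i) (pt (Q j), 1) = 0 ↔ r i j := fun j i =>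
    (lfz (d1 j).1).trans (d2 i j).2
  have p : ∀ j i, 0 ≤ lf (G i) (pt (Q j), 1) := fun j i => lf0 (d1 j).1 (d2 i j).1
  refine iso _ (fun i => lf (G i)) _ p z fun f hf => Order.isExtent_iff.mpr
    (Subset.antisymm (fun j hj => ?_) (subset_lowerPolar_upperPolar _ _))
  have hj : ∀ i, (∀ k, f (pt (Q k), 1) = 0 → r i k) → r i j := fun i h => hj h
  by_cases h : ∃ a, f (pt (Q a), 1) = 0
  · obtain ⟨a, ha⟩ := h
    choose! n hn using (d4 a).2.2
    have e := rep (Finset.univ.filter (r · a)) (d4 a).2.1 _ (fun i => lf (G i))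
      (fun i => (pt (Q (n i)), 1)) (fun i hi => (z a i).mpr (by simpa using hi))
      (fun i hi k hk => (z _ _).trans (hn k (by simpa using hk) i (by simpa using hi))) f ha
    have e2 := fun k => LinearMap.congr_fun e (pt (Q k), 1)
    simp only [LinearMap.sum_apply, LinearMap.smul_apply, smul_eq_mul] at e2
    refine (e2 j).trans (Finset.sum_eq_zero fun i hi => ?_)
    rw [mul_eq_zero, or_iff_not_imp_left]
    refine fun c => (z j i).mpr (hj i fun k hk => (z k i).mp ?_)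
    rw [e2 k, Finset.sum_eq_zero_iff_of_nonneg fun i _ =>
      mul_nonneg (div_nonneg (hf _) (p _ _)) (p _ _)] at hk
    exact (mul_eq_zero.mp (hk i hi)).resolve_left c
  · obtain ⟨i, hi⟩ := (d4 j).1
    exact absurd (hj i fun k hk => absurd ⟨k, hk⟩ h) hi

lemma isoC : Nonempty (Faces cyc ≃o Concept (Fin 7) (Fin 14) r) := by
  classical
  have M0 : ∀ i, 0 < M i 0 := fun i => by simp [M]
  have e : cyc = convexHull ℝ (range fun i => pt (M i)) := by simp [cyc, pt, M]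
  rw [e]
  refine iso _ (fun j => lf (H j)) _ (fun i j => lf0 (M0 i) (d3 i j).1)
    (fun i j => (lfz (M0 i)).trans (d3 i j).2) fun f hf => Order.isExtent_iff.mpr
    (Subset.antisymm (fun i hi => ?_) (subset_lowerPolar_upperPolar _ _))
  by_cases h : ∃ a, f (pt (M a), 1) = 0 ∧ f (pt (M (a + 2)), 1) = 0 ∧ f (pt (M (a + 4)), 1) = 0
  · have ex : ∀ i, f (pt (M i), 1) = f (0, 1) +
        ∑ k : Fin 4, ((i : ℝ) + 1) ^ (k.val + 1) * f (EuclideanSpace.single k 1, 0) := fun i => by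
      have : ((pt (M i), 1) : E 4 × ℝ) = (0, 1) +
          ∑ k : Fin 4, ((i : ℝ) + 1) ^ (k.val + 1) • (EuclideanSpace.single k 1, 0) := by
        ext k <;> simp [Prod.fst_sum, Prod.snd_sum, pt, M, Pi.single_apply]
      rw [this, map_add, map_sum]; simp only [map_smul, smul_eq_mul]
    obtain ⟨y, hy⟩ : ∃ y : Fin 7 → ℝ, ∀ i, f (pt (M i), 1) = y i := ⟨_, fun _ => rfl⟩
    simp only [hy, Fin.sum_univ_four, mem_setOf_eq] at h hf ex ⊢
    have a0 := ex 0; have a1 := ex 1; have a2 := ex 2; have a3 := ex 3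
    have a4 := ex 4; have a5 := ex 5; have a6 := ex 6
    norm_num at a0 a1 a2 a3 a4 a5 a6
    have b1 : y 0 - 5 * y 1 + 10 * y 2 - 10 * y 3 + 5 * y 4 - y 5 = 0 := by linarith
    have b2 : y 1 - 5 * y 2 + 10 * y 3 - 10 * y 4 + 5 * y 5 - y 6 = 0 := by linarith
    clear a0 a1 a2 a3 a4 a5 a6 ex hi
    have s : y 0 + y 1 + y 2 + y 3 + y 4 + y 5 + y 6 ≤ 0 := by
      obtain ⟨a, h⟩ := h
      fin_cases a <;> simp at h <;> obtain ⟨h1, h2, h3⟩ := h <;>
        linarith [hf 0, hf 1, hf 2, hf 3, hf 4, hf 5, hf 6]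
    fin_cases i <;> simp <;> linarith [hf 0, hf 1, hf 2, hf 3, hf 4, hf 5, hf 6]
  · simpa using d5 (Finset.univ.filter fun a => f (pt (M a), 1) = 0)
      (fun a ha => h ⟨a, by simpa using ha⟩) i fun j hj => hi fun k hk => hj k (by simpa using hk)

theorem result : ∃ T : Finset (EuclideanSpace ℝ (Fin 4)),
    (∀ v ∈ T, ∀ k, ∃ q : ℚ, v k = q) ∧
    (T : Set (EuclideanSpace ℝ (Fin 4))) ⊆ Metric.sphere 0 1 ∧
    Nonempty (Faces (convexHull ℝ (T : Set (EuclideanSpace ℝ (Fin 4)))) ≃o (Faces cyc)ᵒᵈ) := by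
  classical
  refine ⟨Finset.univ.image fun j => pt (Q j), ?_, ?_, ?_⟩
  · simp only [Finset.mem_image]
    rintro _ ⟨j, -, rfl⟩ k
    exact ⟨(Q j k.succ : ℚ) / Q j 0, by simp [pt]⟩
  · rw [Finset.coe_image, Finset.coe_univ, image_univ]
    rintro _ ⟨j, rfl⟩
    have h0 : (Q j 0 : ℝ) ≠ 0 := by exact_mod_cast (d1 j).1.ne'
    have h1 : (Q j 1 : ℝ) ^ 2 + Q j 2 ^ 2 + Q j 3 ^ 2 + Q j 4 ^ 2 = Q j 0 ^ 2 := by
      exact_mod_cast (d1 j).2
    rw [mem_sphere_zero_iff_norm, EuclideanSpace.norm_eq, Real.sqrt_eq_one]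
    simp [pt, Fin.sum_univ_four, div_pow]
    field_simp
    exact h1
  · rw [Finset.coe_image, Finset.coe_univ, image_univ]
    obtain ⟨a⟩ := isoP
    obtain ⟨b⟩ := isoC
    exact ⟨a.trans (b.dual.trans Concept.swapEquiv).symm⟩

end Pool.Agent.Results.MP_6ae079_co.Rational
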